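import Pool.Agent.Y382.DN.Stm

/-!
Project DN: representation functions from cubes.
-/

set_option autoImplicit false

namespace Pool.Agent.Y429.DN.REP

open Finset Pool.Agent.Y622.NG Pool.Agent.H607R2.BW Pool.Agent.TH454.BW Pool.Agent.Y382.DN

/-- the number with given bits -/
def num {m : ℕ} (x : Fin m → Bool) : ℕ := ∑ k : Fin m, (x k).toNat * 2 ^ (k : ℕ)

theorem num_succ {m : ℕ} (x : Fin (m + 1) → Bool) :
    num x = (x 0).toNat + 2 * num (fun k : Fin m => x k.succ) := by
  unfold num
  rw [Fin.sum_univ_succ, Finset.mul_sum]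
  simp only [Fin.val_zero, pow_zero, mul_one, Fin.val_succ]
  congr 1
  refine Finset.sum_congr rfl fun k _ => ?_
  ring

theorem num_lt : ∀ {m : ℕ} (x : Fin m → Bool), num x < 2 ^ m
  | 0, x => by simp [num]
  | m + 1, x => by
    rw [num_succ]
    have ih := num_lt (fun k : Fin m => x k.succ)
    have : (x 0).toNat ≤ 1 := Bool.toNat_le _
    rw [pow_succ]
    omega

theorem testBit_num : ∀ {m : ℕ} (x : Fin m → Bool) (i : Fin m), (num x).testBit i = x i
  | 0, x, i => i.elim0
  | m + 1, x, i => by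
    rw [num_succ]
    refine Fin.cases ?_ (fun i => ?_) i
    · rw [Fin.val_zero, Nat.testBit_zero]
      cases x 0 <;> simp
    · rw [Fin.val_succ, Nat.testBit_succ]
      have : ((x 0).toNat + 2 * num (fun k : Fin m => x k.succ)) / 2 =
          num (fun k : Fin m => x k.succ) := by
        have : (x 0).toNat ≤ 1 := Bool.toNat_le _
        omega
      rw [this]
      exact testBit_num (fun k : Fin m => x k.succ) i

theorem bits_inj {m a b : ℕ} (ha : a < 2 ^ m) (hb : b < 2 ^ m)
    (h : (fun i : Fin m => a.testBit i) = fun i : Fin m => b.testBit i) : a = b := by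
  apply Nat.eq_of_testBit_eq
  intro i
  by_cases hi : i < m
  · exact congrFun h ⟨i, hi⟩
  · push Not at hi
    have h1 : 2 ^ m ≤ 2 ^ i := Nat.pow_le_pow_right (by norm_num) hi
    rw [Nat.testBit_lt_two_pow (ha.trans_le h1), Nat.testBit_lt_two_pow (hb.trans_le h1)]

/-- the points of the cube -/
def pt {m d : ℕ} (T : Fin d → Finset (Fin m)) (a b : Fin m → Bool) (J : Finset (Fin d)) :
    Fin m → Bool := fun k => if ∃ j ∈ J, k ∈ T j then b k else a k

theorem num_add {m d : ℕ} (T : Fin d → Finset (Fin m)) (a b : Fin m → Bool)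
    (hT : ∀ i j, i ≠ j → Disjoint (T i) (T j)) (J J' : Finset (Fin d)) :
    num (pt T a b J) + num (pt T a b Jᶜ) = num (pt T a b J') + num (pt T a b J'ᶜ) := by
  have key : ∀ (J : Finset (Fin d)) (k : Fin m), (pt T a b J k).toNat + (pt T a b Jᶜ k).toNat =
      if ∃ j, k ∈ T j then (a k).toNat + (b k).toNat else (a k).toNat + (a k).toNat := by
    intro J k
    unfold pt
    by_cases h : ∃ j, k ∈ T j
    · rw [if_pos h]
      obtain ⟨j, hj⟩ := h
      have huniq : ∀ j', k ∈ T j' → j' = j := by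
        intro j' hj'
        by_contra hne
        exact (Finset.disjoint_left.1 (hT j' j hne)) hj' hj
      by_cases hJ : j ∈ J
      · have h1 : ∃ j ∈ J, k ∈ T j := ⟨j, hJ, hj⟩
        have h2 : ¬ ∃ j ∈ Jᶜ, k ∈ T j := by
          rintro ⟨j', h3, h4⟩
          rw [huniq j' h4] at h3
          exact (Finset.mem_compl.1 h3) hJ
        rw [if_pos h1, if_neg h2, add_comm]
      · have h1 : ∃ j ∈ Jᶜ, k ∈ T j := ⟨j, Finset.mem_compl.2 hJ, hj⟩
        have h2 : ¬ ∃ j ∈ J, k ∈ T j := by
          rintro ⟨j', h3, h4⟩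
          rw [huniq j' h4] at h3
          exact hJ h3
        rw [if_pos h1, if_neg h2]
    · have h1 : ¬ ∃ j ∈ J, k ∈ T j := fun ⟨j, _, hj⟩ => h ⟨j, hj⟩
      have h2 : ¬ ∃ j ∈ Jᶜ, k ∈ T j := fun ⟨j, _, hj⟩ => h ⟨j, hj⟩
      rw [if_neg h, if_neg h1, if_neg h2]
  have sum : ∀ J : Finset (Fin d), num (pt T a b J) + num (pt T a b Jᶜ) =
      ∑ k : Fin m, (if ∃ j, k ∈ T j then (a k).toNat + (b k).toNat
        else (a k).toNat + (a k).toNat) * 2 ^ (k : ℕ) := by
    intro J
    unfold num
    rw [← Finset.sum_add_distrib]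
    refine Finset.sum_congr rfl fun k _ => ?_
    rw [← add_mul, key J k]
  rw [sum J, sum J']

theorem pt_inj {m d : ℕ} {T : Fin d → Finset (Fin m)} {a b : Fin m → Bool}
    (hT : ∀ i j, i ≠ j → Disjoint (T i) (T j)) (hab : ∀ j, ∃ k ∈ T j, a k ≠ b k)
    {J J' : Finset (Fin d)} (h : pt T a b J = pt T a b J') : J = J' := by
  have key : ∀ (J : Finset (Fin d)) (j : Fin d) (k : Fin m), k ∈ T j → a k ≠ b k →
      (j ∈ J ↔ pt T a b J k = b k) := by
    intro J j k hk hne
    unfold pt
    constructor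
    · intro hj
      rw [if_pos ⟨j, hj, hk⟩]
    · intro h1
      by_contra hj
      have h2 : ¬ ∃ j ∈ J, k ∈ T j := by
        rintro ⟨j', h3, h4⟩
        by_cases hjj : j' = j
        · rw [hjj] at h3; exact hj h3
        · exact (Finset.disjoint_left.1 (hT j' j hjj)) h4 hk
      rw [if_neg h2] at h1
      exact hne h1
  ext j
  obtain ⟨k, hk, hne⟩ := hab j
  rw [key J j k hk hne, key J' j k hk hne, h]

theorem t_REP (hC : S_CUBE) : S_REP := by
  classical
  intro A m s w t hA hlt
  obtain ⟨C, out, hCA⟩ := hA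
  by_cases hcube : Cube univ (fun x => C.val out x = true) (t + 1)
  · obtain ⟨T, a, b, _, hT, hab, hP⟩ := hcube
    have hmem : ∀ J, num (pt T a b J) ∈ A := by
      intro J
      rw [← hCA _ (num_lt _)]
      have e : (fun i : Fin m => (num (pt T a b J)).testBit i) = pt T a b J := by
        funext i; exact testBit_num _ i
      rw [e]
      have := hP J
      have e2 : pt T a b J = fun k => if ∃ j ∈ J, k ∈ T j then b k else a k := by
        funext k
        unfold pt
        split_ifs <;> rfl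
      rw [e2]
      exact this
    obtain ⟨n, hn⟩ : ∃ n, n = num (pt T a b (∅ : Finset (Fin (t + 1)))) +
      num (pt T a b (∅ : Finset (Fin (t + 1)))ᶜ) := ⟨_, rfl⟩
    refine ⟨n, ?_, ?_⟩
    · have h1 := num_lt (pt T a b (∅ : Finset (Fin (t + 1))))
      have h2 := num_lt (pt T a b (∅ : Finset (Fin (t + 1)))ᶜ)
      rw [pow_succ]
      omega
    · have hfin : Finite {ab : ℕ × ℕ // ab.1 ∈ A ∧ ab.2 ∈ A ∧ ab.1 + ab.2 = n} := by
        refine Finite.of_injective (fun z => ((⟨z.1.1, by have := z.2.2.2; omega⟩,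
          ⟨z.1.2, by have := z.2.2.2; omega⟩) : Fin (n + 1) × Fin (n + 1))) ?_
        rintro ⟨⟨x, y⟩, h⟩ ⟨⟨x', y'⟩, h'⟩ heq
        simp only [Prod.mk.injEq, Fin.mk.injEq] at heq
        obtain ⟨rfl, rfl⟩ := heq
        rfl
      have hcard : Nat.card (Finset (Fin (t + 1))) = 2 ^ (t + 1) := by
        rw [Nat.card_eq_fintype_card, Fintype.card_finset, Fintype.card_fin]
      unfold reps
      rw [← hcard]
      refine Nat.card_le_card_of_injective (fun J => (⟨(num (pt T a b J), num (pt T a b Jᶜ)),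
        hmem J, hmem Jᶜ, by rw [hn]; exact num_add T a b hT J ∅⟩ :
        {ab : ℕ × ℕ // ab.1 ∈ A ∧ ab.2 ∈ A ∧ ab.1 + ab.2 = n})) ?_
      intro J J' h
      simp only [Subtype.mk.injEq, Prod.mk.injEq] at h
      apply pt_inj hT hab
      funext k
      rw [← testBit_num (pt T a b J) k, ← testBit_num (pt T a b J') k, h.1]
  · exfalso
    have h1 := hC t m s w C out univ (subset_univ _) hcube
    have h2 : (acc C out).image (fun x => mxs univ x (fun _ => false)) = acc C out := by
      have : (fun x : Fin m → Bool => mxs univ x (fun _ => false)) = id := by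
        funext x
        funext i
        exact mxs_mem (mem_univ i)
      rw [this, Finset.image_id]
    rw [h2] at h1
    have h3 : Nat.card {a : ℕ // a ∈ A ∧ a < 2 ^ m} ≤ (acc C out).card := by
      have e : (acc C out).card = Nat.card {x // x ∈ acc C out} := by
        rw [Nat.card_eq_fintype_card, Fintype.card_coe]
      rw [e]
      refine Nat.card_le_card_of_injective (fun z => (⟨fun i : Fin m => z.1.testBit i, by
        unfold acc
        rw [Finset.mem_filter]
        exact ⟨mem_univ _, (hCA z.1 z.2.2).2 z.2.1⟩⟩ : {x // x ∈ acc C out})) ?_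
      intro z z' h
      simp only [Subtype.mk.injEq] at h
      exact Subtype.ext (bits_inj z.2.2 z'.2.2 h)
    omega

end Pool.Agent.Y429.DN.REP
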