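import Pool.Agent.Y382.DN.Stm

/-!
Project DN: symmetric designs.
-/

set_option autoImplicit false

namespace Pool.Agent.Y429.DN.DES

open Finset Pool.Agent.Y622.NG Pool.Agent.H607R2.BW Pool.Agent.TH454.BW Pool.Agent.Y382.DN

theorem free {lam m v : ℕ} (B : Fin v → Finset (Fin v)) (p b : Fin v → Str m) (hlam : 1 ≤ lam)
    (hB : ∀ x y : Fin v, x ≠ y → (univ.filter (fun i => x ∈ B i ∧ y ∈ B i)).card = lam)
    (hp : Function.Injective p) (hb : Function.Injective b) :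
    GridFree (lam + 1) (fun x y => ∃ i j, i ∈ B j ∧ x = p i ∧ y = b j) := by
  intro x y hx hy
  by_contra hcon
  have h0 : ∀ a c, ∃ i j, i ∈ B j ∧ x a = p i ∧ y c = b j := by
    intro a c
    by_contra h
    exact hcon ⟨a, c, h⟩
  choose I J h1 h2 h3 using h0
  have hI : ∀ a c c', I a c = I a c' := fun a c c' => hp ((h2 a c).symm.trans (h2 a c'))
  have hJ : ∀ a a' c, J a c = J a' c := fun a a' c => hb ((h3 a c).symm.trans (h3 a' c))
  obtain ⟨z, hz⟩ : ∃ z : Fin (lam + 1), z = 0 := ⟨_, rfl⟩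
  obtain ⟨o, ho⟩ : ∃ o : Fin (lam + 1), o = ⟨1, by omega⟩ := ⟨_, rfl⟩
  have hzo : z ≠ o := by
    rw [hz, ho]
    intro h
    have := congrArg Fin.val h
    simp at this
  have hne : I z z ≠ I o z := by
    intro h
    apply hzo
    apply hx
    rw [h2 z z, h2 o z, h]
  have hcard := hB _ _ hne
  have hsub : univ.image (fun c => J z c) ⊆ univ.filter (fun j => I z z ∈ B j ∧ I o z ∈ B j) := by
    intro j hj
    obtain ⟨c, _, rfl⟩ := Finset.mem_image.1 hj
    rw [Finset.mem_filter]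
    refine ⟨mem_univ _, ?_, ?_⟩
    · rw [hI z z c]; exact h1 z c
    · rw [hI o z c, hJ z o c]; exact h1 o c
  have hinj : Function.Injective (fun c => J z c) := by
    intro c c' h
    apply hy
    have h' : J z c = J z c' := h
    rw [h3 z c, h3 z c', h']
  have := Finset.card_le_card hsub
  rw [Finset.card_image_of_injective _ hinj, Finset.card_univ, Fintype.card_fin, hcard] at this
  omega

theorem count {lam v k : ℕ} (B : Fin v → Finset (Fin v)) (hk : ∀ i, (B i).card = k)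
    (hB : ∀ x y : Fin v, x ≠ y → (univ.filter (fun i => x ∈ B i ∧ y ∈ B i)).card = lam) :
    (v * v - v) * lam = v * (k * k - k) := by
  have h1 : ∑ q ∈ (univ : Finset (Fin v)).offDiag,
      (univ.filter (fun i => q.1 ∈ B i ∧ q.2 ∈ B i)).card = (v * v - v) * lam := by
    rw [Finset.sum_congr rfl (fun q hq => hB q.1 q.2 (Finset.mem_offDiag.1 hq).2.2),
      Finset.sum_const, Finset.offDiag_card, Finset.card_univ, Fintype.card_fin, smul_eq_mul]
  rw [← h1]
  have h2 : ∀ q : Fin v × Fin v, (univ.filter (fun i => q.1 ∈ B i ∧ q.2 ∈ B i)).card =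
      ∑ i, if q.1 ∈ B i ∧ q.2 ∈ B i then 1 else 0 := by
    intro q; rw [Finset.card_filter]
  rw [Finset.sum_congr rfl (fun q _ => h2 q), Finset.sum_comm]
  have h3 : ∀ i : Fin v, ∑ q ∈ (univ : Finset (Fin v)).offDiag,
      (if q.1 ∈ B i ∧ q.2 ∈ B i then 1 else 0) = k * k - k := by
    intro i
    rw [← Finset.card_filter, ← hk i, ← Finset.offDiag_card]
    congr 1
    ext q
    simp only [Finset.mem_filter, Finset.mem_offDiag, mem_univ, true_and]
    tauto
  rw [Finset.sum_congr rfl (fun i _ => h3 i), Finset.sum_const, Finset.card_univ, Fintype.card_fin,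
    smul_eq_mul]

theorem t_DES (hK : S_KRR) : S_DES := by
  intro lam m s w v k B p b hlam hk hB hp hb hv hC
  have h1 := hK m s w (lam + 1) _ (by omega) hC (free B p b hlam hB hp hb)
  have h2 : v * k ≤ Nat.card {q : Str m × Str m // ∃ i j, i ∈ B j ∧ q.1 = p i ∧ q.2 = b j} := by
    have e : Nat.card ((j : Fin v) × {i // i ∈ B j}) = v * k := by
      rw [Nat.card_eq_fintype_card, Fintype.card_sigma]
      simp only [Fintype.card_coe, hk, Finset.sum_const, Finset.card_univ, Fintype.card_fin,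
        smul_eq_mul]
    rw [← e]
    refine Nat.card_le_card_of_injective
      (fun z => (⟨(p z.2.1, b z.1), z.2.1, z.1, z.2.2, rfl, rfl⟩ :
        {q : Str m × Str m // ∃ i j, i ∈ B j ∧ q.1 = p i ∧ q.2 = b j})) ?_
    rintro ⟨j, i, hi⟩ ⟨j', i', hi'⟩ h
    simp only [Subtype.mk.injEq, Prod.mk.injEq] at h
    obtain rfl := hb h.2
    obtain rfl := hp h.1
    rfl
  have hv1 : 1 ≤ v := by
    have : 1 ≤ 2 ^ m := Nat.one_le_two_pow
    omega
  have h3 : v * k ≤ v * (4 * lam ^ 3 * 2 ^ w * s) := by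
    calc v * k ≤ 2 * (lam + 1 - 1) ^ 3 * 2 ^ w * (s * 2 ^ m) := h2.trans h1
      _ = 2 * lam ^ 3 * 2 ^ w * (s * 2 ^ m) := by rw [Nat.add_sub_cancel]
      _ ≤ 2 * lam ^ 3 * 2 ^ w * (s * (2 * v)) := by gcongr
      _ = v * (4 * lam ^ 3 * 2 ^ w * s) := by ring
  have hk4 : k ≤ 4 * lam ^ 3 * 2 ^ w * s := Nat.le_of_mul_le_mul_left h3 hv1
  refine ⟨hk4, ?_⟩
  have h4 := count B hk hB
  obtain ⟨v', rfl⟩ : ∃ v', v = v' + 1 := ⟨v - 1, by omega⟩
  have h5 : (v' + 1) * (v' + 1) - (v' + 1) = (v' + 1) * v' := by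
    rw [Nat.sub_eq_iff_eq_add (by nlinarith)]; ring
  rw [h5, mul_assoc] at h4
  have h6 : v' * lam = k * k - k := Nat.eq_of_mul_eq_mul_left (by omega) h4
  have h7 : v' * lam ≤ 16 * lam ^ 5 * 4 ^ w * s ^ 2 * lam := by
    calc v' * lam = k * k - k := h6
      _ ≤ k * k := Nat.sub_le _ _
      _ ≤ (4 * lam ^ 3 * 2 ^ w * s) * (4 * lam ^ 3 * 2 ^ w * s) := Nat.mul_le_mul hk4 hk4
      _ = 16 * lam ^ 5 * (2 ^ w * 2 ^ w) * s ^ 2 * lam := by ring
      _ = 16 * lam ^ 5 * 4 ^ w * s ^ 2 * lam := by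
        have e : (2 ^ w * 2 ^ w : ℕ) = 4 ^ w := by rw [← mul_pow]; norm_num
        rw [e]
  have h8 : v' ≤ 16 * lam ^ 5 * 4 ^ w * s ^ 2 := Nat.le_of_mul_le_mul_right h7 hlam
  omega

end Pool.Agent.Y429.DN.DES
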